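import Mathlib
import Pool.Agent.H270Z.Final2

set_option autoImplicit false

namespace Pool.Agent.Results.MP_fcb754_nt.ALindelofFalse

/-- The bound of Q1 already fails on one vertical line `σ ≥ r - d/2`, `t ≥ 2`. `F` is
holomorphic on the connected open set `ℂ ∖ {1, …, r}` and equals the Barnes series for
`Re s > r`, so it is the continuation of the Barnes zeta function. -/
theorem result :
    ∃ (r : ℕ) (a : ℝ) (w : Fin r → ℝ) (F : ℂ → ℂ), 1 ≤ r ∧ 0 < a ∧ (∀ j, 0 < w j) ∧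
      DifferentiableOn ℂ F {s : ℂ | ∀ n : ℕ, 1 ≤ n → n ≤ r → s ≠ (n : ℂ)} ∧
      (∀ s : ℂ, (r : ℝ) < s.re →
        F s = ∑' m : Fin r → ℕ, (((a + ∑ j, (m j : ℝ) * w j : ℝ) : ℂ) ^ (-s))) ∧
      ∃ ε : ℝ, 0 < ε ∧ ∃ σ : ℝ,
        (r : ℝ) - (Module.finrank ℚ (Submodule.span ℚ (Set.range w)) : ℝ) / 2 ≤ σ ∧
        ¬ ∃ C : ℝ, ∀ t : ℝ, 2 ≤ t → ‖F ((σ : ℂ) + (t : ℂ) * Complex.I)‖ ≤ C * t ^ ε :=
  Pool.Agent.H270Z.lindelof_false2

end Pool.Agent.Results.MP_fcb754_nt.ALindelofFalse
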